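import Pool.Agent.Helper91.GR.EdgeBounds

/-!
# P15 : decay at the edges of the slab, final part
-/

set_option autoImplicit false

open scoped ContDiff Topology NNReal
open Set Filter MeasureTheory

namespace Pool.Agent.GR

open Pool.Agent.Helper25.GrimReaper

variable {n : ℕ}

lemma P15_init [NeZero n] {u₀ : E n → ℝ} (h : IsC0DecayPerturbation n u₀) {ε : ℝ} (hε : 0 < ε) :
    ∃ y₁ : ℝ, 0 < y₁ ∧ ∀ x ∈ slab n, Real.pi / 2 - |x 0| ≤ y₁ → |u₀ x - v₀ x| ≤ ε := by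
  obtain ⟨K, hK, hKU, hKb⟩ := h.2 ε hε
  have hex : ∃ y₁ : ℝ, 0 < y₁ ∧ ∀ x ∈ K, y₁ < Real.pi / 2 - |x 0| := by
    rcases K.eq_empty_or_nonempty with h0 | h0
    · exact ⟨1, one_pos, fun x hx => by simp [h0] at hx⟩
    · have hc : ContinuousOn (fun x : E n => Real.pi / 2 - |x 0|) K := by fun_prop
      obtain ⟨z, hz, hmin⟩ := hK.exists_isMinOn h0 hc
      have hpos : 0 < Real.pi / 2 - |z 0| := by
        have := hKU hz
        have := abs_lt.2 ⟨this.1, this.2⟩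
        linarith
      refine ⟨(Real.pi / 2 - |z 0|) / 2, by linarith, fun x hx => ?_⟩
      have := hmin hx
      simp only [mem_ofPred_eq] at this
      linarith
  obtain ⟨y₁, hy₁, hy⟩ := hex
  refine ⟨y₁, hy₁, fun x hx hxy => ?_⟩
  by_cases hxK : x ∈ K
  · have := hy x hxK
    linarith
  · exact (hKb x hx hxK).le

lemma P15_le_abs {s : ℝ} (hs : s ^ 2 = 1) (z : ℝ) : s * z ≤ |z| := by
  rcases P15_s hs with rfl | rfl
  · simpa using le_abs_self z
  · simpa using neg_le_abs z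

lemma P15_sin_lower {y : ℝ} (hy : 0 < y) (hy1 : y ≤ 1) : y * (1 - y) ≤ Real.sin y := by
  have h1 := Real.sin_gt_sub_cube hy
  have h2 : y ^ 3 ≤ y ^ 2 := by
    have h3 : 0 ≤ y ^ 2 := sq_nonneg y
    nlinarith
  nlinarith [mul_pos hy hy]

lemma P15_side_upper [NeZero n] {u : E n → ℝ → ℝ} (hu : IsGraphicalSolution (slab n) u)
    (h1 : ∀ T : ℝ, ∃ C₀ : ℝ, ∀ x ∈ slab n, ∀ t ∈ Icc 0 T, |u x t - (v₀ x + t)| ≤ C₀)
    (h2 : ∀ T ε : ℝ, 0 < ε → ∃ R : ℝ, ∀ x ∈ slab n, (∃ i : Fin n, i ≠ 0 ∧ R ≤ |x i|) →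
      ∀ t ∈ Icc 0 T, |u x t - (v₀ x + t)| ≤ ε)
    (h3 : IsC0DecayPerturbation n (fun x => u x 0)) {s : ℝ} (hs : s ^ 2 = 1) {T η : ℝ}
    (hT : 0 ≤ T) (hη : 0 < η) :
    ∃ δ : ℝ, 0 < δ ∧ ∀ x ∈ P15U n s, Real.pi / 2 - s * x 0 ≤ δ → ∀ t ∈ Icc 0 T,
      u x t - (v₀ x + t) < η := by
  obtain ⟨C₀, hC₀⟩ := h1 T
  obtain ⟨R, hR⟩ := h2 T (η / 6) (by positivity)
  obtain ⟨y₁, hy₁, hini⟩ := P15_init h3 (show 0 < η / 6 by positivity)
  have hpi := Real.pi_gt_three
  have hq : Real.exp (-(η / 6)) < 1 := by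
    rw [Real.exp_lt_one_iff]; linarith
  have hq0 := Real.exp_pos (-(η / 6))
  set y₀ := min y₁ (1 - Real.exp (-(η / 6))) with hy₀
  have hy₀0 : 0 < y₀ := lt_min hy₁ (by linarith)
  have hy₀1 : y₀ < 1 := (min_le_right _ _).trans_lt (by linarith)
  have hsin : 0 < Real.sin y₀ := Real.sin_pos_of_pos_of_lt_pi hy₀0 (by linarith)
  set C := (Real.pi / 2) / (Real.exp (-C₀) * Real.sin y₀) ^ 2 with hC
  have hC0 : 0 < C := by positivity
  have key := P15_upper hu (T := T) (C₀ := C₀) (ε' := η / 6) (A := Real.exp (η / 3)) (R := R)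
    (y₀ := y₀) (C := C) hT hs (fun x hx t ht => (abs_le.1 (hC₀ x hx t ht)).2)
    (fun x hx hi t ht => (abs_le.1 (hR x hx hi t ht)).2)
    (fun x hx hxy => (abs_le.1 (hini x hx (by
      have := P15_le_abs hs (x 0)
      have := min_le_left y₁ (1 - Real.exp (-(η / 6)))
      linarith))).2) hy₀0 (by linarith) (Real.exp_pos _)
    (fun y hy hyy => by
      have f1 := P15_sin_lower hy (by linarith)
      have f2 : y ≤ 1 - Real.exp (-(η / 6)) := hyy.trans (min_le_right _ _)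
      have f3 : y * Real.exp (-(η / 6)) ≤ Real.sin y := by nlinarith
      rw [← mul_assoc, ← Real.exp_add]
      have f4 : Real.exp (η / 3 + -(η / 6)) * Real.exp (-(η / 6)) = 1 := by
        rw [← Real.exp_add, ← Real.exp_zero]; congr 1; ring
      have f5 := mul_le_mul_of_nonneg_left f3 (Real.exp_pos (η / 3 + -(η / 6))).le
      nlinarith)
    (by
      rw [hC, div_mul_cancel₀ _ (by positivity)])
  set C' := C * Real.exp (2 * T + 2 * C₀) with hC'
  have hC'0 : 0 < C' := by positivity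
  have hq3 : Real.exp (-(η / 3)) < 1 := by
    rw [Real.exp_lt_one_iff]; linarith
  refine ⟨(1 - Real.exp (-(η / 3))) / C', div_pos (by linarith) hC'0, fun x hx hxδ t ht => ?_⟩
  have hxs := P15U_subset hs hx
  have hk := key x hx t ht
  set D := u x t - (v₀ x + t) with hD
  set y := Real.pi / 2 - s * x 0 with hy
  have hy0 : 0 < y := by rw [hy]; linarith [hx.2]
  have hypi : y < Real.pi / 2 := by rw [hy]; linarith [hx.1]
  have hsy : 0 < Real.sin y := Real.sin_pos_of_pos_of_lt_pi hy0 (by linarith)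
  have hsy' : Real.sin y ≤ y := Real.sin_le hy0.le
  have g1 : Real.exp (t - u x t) = Real.exp (-D) * Real.sin y := by
    rw [hy, ← P15_exp_v₀ hs hxs, ← Real.exp_add]
    congr 1; rw [hD]; ring
  have hDC := abs_le.1 (hC₀ x hxs t ht)
  have g2 : Real.exp (4 * t - 2 * u x t) ≤ Real.exp (2 * T + 2 * C₀) * Real.sin y ^ 2 := by
    rw [hy, ← P15_exp_v₀ hs hxs, ← Real.exp_nat_mul, ← Real.exp_add]
    apply Real.exp_le_exp.2
    push_cast
    linarith [ht.2, hDC.1]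
  have g3 : y ≤ Real.exp (η / 3) * (Real.exp (-D) * Real.sin y) + C' * Real.sin y ^ 2 := by
    rw [g1] at hk
    have := mul_le_mul_of_nonneg_left g2 hC0.le
    rw [← mul_assoc, ← hC'] at this
    linarith
  have g4 : Real.sin y * 1 ≤ Real.sin y * (Real.exp (η / 3) * Real.exp (-D) + C' * y) := by
    have : C' * Real.sin y ^ 2 ≤ C' * (Real.sin y * y) :=
      mul_le_mul_of_nonneg_left (by nlinarith) hC'0.le
    nlinarith
  have g5 := le_of_mul_le_mul_left g4 hsy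
  have g6 : C' * y ≤ 1 - Real.exp (-(η / 3)) := by
    rw [le_div_iff₀ hC'0] at hxδ
    linarith
  have g7 : Real.exp (-(η / 3)) ≤ Real.exp (η / 3 + -D) := by
    rw [Real.exp_add]; linarith
  have g8 := Real.exp_le_exp.1 g7
  linarith

lemma P15_side_lower [NeZero n] {u : E n → ℝ → ℝ} (hu : IsGraphicalSolution (slab n) u)
    (h1 : ∀ T : ℝ, ∃ C₀ : ℝ, ∀ x ∈ slab n, ∀ t ∈ Icc 0 T, |u x t - (v₀ x + t)| ≤ C₀)
    (h2 : ∀ T ε : ℝ, 0 < ε → ∃ R : ℝ, ∀ x ∈ slab n, (∃ i : Fin n, i ≠ 0 ∧ R ≤ |x i|) →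
      ∀ t ∈ Icc 0 T, |u x t - (v₀ x + t)| ≤ ε)
    (h3 : IsC0DecayPerturbation n (fun x => u x 0)) {s : ℝ} (hs : s ^ 2 = 1) {T η : ℝ}
    (hT : 0 ≤ T) (hη : 0 < η) :
    ∃ δ : ℝ, 0 < δ ∧ ∀ x ∈ P15U n s, Real.pi / 2 - s * x 0 ≤ δ → ∀ t ∈ Icc 0 T,
      -η < u x t - (v₀ x + t) := by
  obtain ⟨C₀, hC₀⟩ := h1 T
  obtain ⟨R, hR⟩ := h2 T (η / 3) (by positivity)
  obtain ⟨y₁, hy₁, hini⟩ := P15_init h3 (show 0 < η / 3 by positivity)
  have hpi := Real.pi_gt_three
  set y₀ := min y₁ 1 with hy₀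
  have hy₀0 : 0 < y₀ := lt_min hy₁ one_pos
  have hy₀1 : y₀ ≤ 1 := min_le_right _ _
  set C := 1 / (4 * y₀) + Real.exp C₀ with hC
  have hC0 : 0 < C := by positivity
  have hCC : Real.exp C₀ < 2 * C := by
    have : 0 < 1 / (4 * y₀) := by positivity
    have := Real.exp_pos C₀
    linarith
  have hCy : 1 / (4 * C) ≤ y₀ := by
    rw [div_le_iff₀ (by positivity)]
    have h4 : y₀ * (4 * (1 / (4 * y₀))) = 1 := by field_simp
    have h5 := Real.exp_pos C₀
    have h6 : 0 ≤ y₀ * (4 * Real.exp C₀) := by positivity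
    rw [hC]
    nlinarith
  have hB1 : Real.exp (-(η / 3)) ≤ 1 := by
    rw [Real.exp_le_one_iff]; linarith
  have key := P15_lower hu (T := T) (C₀ := C₀) (ε' := η / 3) (B := Real.exp (-(η / 3))) (R := R)
    (y₀ := y₀) (C := C) hT hs (fun x hx t ht => (abs_le.1 (hC₀ x hx t ht)).1)
    (fun x hx hi t ht => (abs_le.1 (hR x hx hi t ht)).1)
    (fun x hx hxy => (abs_le.1 (hini x hx (by
      have := P15_le_abs hs (x 0)
      have := min_le_left y₁ 1
      linarith))).1) (by linarith) (Real.exp_pos _) hB1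
    (by rw [← Real.exp_add]; simp) hC0 hCy hCC
  set C' := C * Real.exp (4 * T + C₀) with hC'
  have hC'0 : 0 < C' := by positivity
  have hq4 : Real.exp (-(η / 4)) < 1 := by
    rw [Real.exp_lt_one_iff]; linarith
  have hq2 : Real.exp (-(η / 2)) < Real.exp (-(η / 3)) := by
    rw [Real.exp_lt_exp]; linarith
  refine ⟨min (1 - Real.exp (-(η / 4))) ((Real.exp (-(η / 3)) - Real.exp (-(η / 2))) / C'),
    lt_min (by linarith) (div_pos (by linarith) hC'0), fun x hx hxδ t ht => ?_⟩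
  have hxs := P15U_subset hs hx
  have hk := key x hx t ht
  have hd1 := hxδ.trans (min_le_left _ _)
  have hd2 := hxδ.trans (min_le_right _ _)
  set D := u x t - (v₀ x + t) with hD
  set y := Real.pi / 2 - s * x 0 with hy
  have hy0 : 0 < y := by rw [hy]; linarith [hx.2]
  have hy1 : y ≤ 1 := by linarith [Real.exp_pos (-(η / 4))]
  have hsy : 0 < Real.sin y := Real.sin_pos_of_pos_of_lt_pi hy0 (by linarith)
  have hsy' : Real.sin y ≤ y := Real.sin_le hy0.le
  have hsl := P15_sin_lower hy0 hy1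
  have g1 : Real.exp (t - u x t) = Real.exp (-D) * Real.sin y := by
    rw [hy, ← P15_exp_v₀ hs hxs, ← Real.exp_add]
    congr 1; rw [hD]; ring
  have hDC := abs_le.1 (hC₀ x hxs t ht)
  have g2 : Real.exp (6 * t - 2 * u x t) ≤
      Real.exp (4 * T + C₀) * Real.exp (-D) * Real.sin y ^ 2 := by
    rw [hy, ← P15_exp_v₀ hs hxs, ← Real.exp_nat_mul, ← Real.exp_add, ← Real.exp_add]
    apply Real.exp_le_exp.2
    push_cast
    linarith [ht.2, hDC.1]
  have hD0 := Real.exp_pos (-D)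
  have g3 : Real.exp (-(η / 3)) * (Real.exp (-D) * Real.sin y)
      - C' * (Real.exp (-D) * Real.sin y ^ 2) ≤ y := by
    rw [g1] at hk
    have := mul_le_mul_of_nonneg_left g2 hC0.le
    have e : C * (Real.exp (4 * T + C₀) * Real.exp (-D) * Real.sin y ^ 2) =
      C' * (Real.exp (-D) * Real.sin y ^ 2) := by rw [hC']; ring
    rw [e] at this
    linarith
  have g4 : Real.exp (-D) * Real.sin y * (Real.exp (-(η / 3)) - C' * y) ≤ y := by
    have : C' * (Real.exp (-D) * Real.sin y ^ 2) ≤ C' * (Real.exp (-D) * (Real.sin y * y)) := by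
      apply mul_le_mul_of_nonneg_left _ hC'0.le
      apply mul_le_mul_of_nonneg_left _ hD0.le
      nlinarith
    nlinarith
  have g5 : C' * y ≤ Real.exp (-(η / 3)) - Real.exp (-(η / 2)) := by
    rw [le_div_iff₀ hC'0] at hd2
    linarith
  have g6 : Real.exp (-D) * Real.sin y * Real.exp (-(η / 2)) ≤ y := by
    refine le_trans ?_ g4
    apply mul_le_mul_of_nonneg_left _ (by positivity)
    linarith
  have g7 : y * Real.exp (-(η / 4)) ≤ Real.sin y := by
    refine le_trans ?_ hsl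
    apply mul_le_mul_of_nonneg_left _ hy0.le
    linarith
  have g8 : y * (Real.exp (-D) * Real.exp (-(η / 4)) * Real.exp (-(η / 2))) ≤ y * 1 := by
    have h7 : Real.exp (-D) * (y * Real.exp (-(η / 4))) * Real.exp (-(η / 2)) ≤
        Real.exp (-D) * Real.sin y * Real.exp (-(η / 2)) := by
      apply mul_le_mul_of_nonneg_right _ (Real.exp_pos _).le
      exact mul_le_mul_of_nonneg_left g7 hD0.le
    linarith
  have g9 := le_of_mul_le_mul_left g8 hy0
  rw [← Real.exp_add, ← Real.exp_add, Real.exp_le_one_iff] at g9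
  linarith

/-- **P15.** -/
theorem edge_decay [NeZero n] {u : E n → ℝ → ℝ} (hu : IsGraphicalSolution (slab n) u)
    (h1 : ∀ T : ℝ, ∃ C₀ : ℝ, ∀ x ∈ slab n, ∀ t ∈ Icc 0 T, |u x t - (v₀ x + t)| ≤ C₀)
    (h2 : ∀ T ε : ℝ, 0 < ε → ∃ R : ℝ, ∀ x ∈ slab n, (∃ i : Fin n, i ≠ 0 ∧ R ≤ |x i|) →
      ∀ t ∈ Icc 0 T, |u x t - (v₀ x + t)| ≤ ε)
    (h3 : IsC0DecayPerturbation n (fun x => u x 0)) : StaysAsymptotic n u := by
  intro T ε hε
  set T' := max T 0 with hT'
  have hT'0 : 0 ≤ T' := le_max_right _ _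
  have hpi := Real.pi_gt_three
  obtain ⟨a1, ha1, hb1⟩ := P15_side_upper hu h1 h2 h3 (s := 1) (by norm_num) hT'0 hε
  obtain ⟨a2, ha2, hb2⟩ := P15_side_lower hu h1 h2 h3 (s := 1) (by norm_num) hT'0 hε
  obtain ⟨a3, ha3, hb3⟩ := P15_side_upper hu h1 h2 h3 (s := -1) (by norm_num) hT'0 hε
  obtain ⟨a4, ha4, hb4⟩ := P15_side_lower hu h1 h2 h3 (s := -1) (by norm_num) hT'0 hε
  obtain ⟨R, hR⟩ := h2 T' (ε / 2) (by positivity)
  set δ := min 1 (min (min a1 a2) (min a3 a4)) with hδ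
  have hδ0 : 0 < δ := lt_min one_pos (lt_min (lt_min ha1 ha2) (lt_min ha3 ha4))
  have hδ1 : δ ≤ 1 := min_le_left _ _
  have hδa1 : δ ≤ a1 := (min_le_right _ _).trans ((min_le_left _ _).trans (min_le_left _ _))
  have hδa2 : δ ≤ a2 := (min_le_right _ _).trans ((min_le_left _ _).trans (min_le_right _ _))
  have hδa3 : δ ≤ a3 := (min_le_right _ _).trans ((min_le_right _ _).trans (min_le_left _ _))
  have hδa4 : δ ≤ a4 := (min_le_right _ _).trans ((min_le_right _ _).trans (min_le_right _ _))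
  refine ⟨_, P15_isCompact_slabBox (n := n) 1 (-(Real.pi / 2 - δ)) (Real.pi / 2 - δ) R
    (by norm_num), ?_, ?_⟩
  · rintro x ⟨hx1, hx2, _⟩
    exact ⟨by linarith, by linarith⟩
  · intro x hx hxK t ht
    have ht' : t ∈ Icc 0 T' := ⟨ht.1, ht.2.trans (le_max_left _ _)⟩
    by_cases hi : ∃ i : Fin n, i ≠ 0 ∧ R ≤ |x i|
    · exact (hR x hx hi t ht').trans_lt (by linarith)
    · push Not at hi
      by_cases hc1 : Real.pi / 2 - δ < x 0
      · have hxU : x ∈ P15U n 1 := ⟨by linarith, by linarith [hx.2]⟩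
        rw [abs_lt]
        exact ⟨hb2 x hxU (by linarith) t ht', hb1 x hxU (by linarith) t ht'⟩
      · by_cases hc2 : x 0 < -(Real.pi / 2 - δ)
        · have hxU : x ∈ P15U n (-1) := ⟨by linarith, by linarith [hx.1]⟩
          rw [abs_lt]
          exact ⟨hb4 x hxU (by linarith) t ht', hb3 x hxU (by linarith) t ht'⟩
        · exact absurd (⟨by linarith, by linarith, fun i hi' => (hi i hi').le⟩) hxK

end Pool.Agent.GR
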