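import Pool.Agent.Helper91.GR.EdgeMax

/-!
# P15 : decay at the edges of the slab, part 3: the two barrier inequalities
-/

set_option autoImplicit false

open scoped ContDiff Topology NNReal
open Set Filter MeasureTheory

namespace Pool.Agent.GR

open Pool.Agent.Helper25.GrimReaper

variable {n : ℕ}

/-- half of the slab -/
def P15U (n : ℕ) [NeZero n] (s : ℝ) : Set (E n) := {x | s * x 0 ∈ Ioo 0 (Real.pi / 2)}

lemma P15U_open [NeZero n] (s : ℝ) : IsOpen (P15U n s) := by
  have : Continuous (fun z : E n => s * z 0) := by fun_prop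
  exact isOpen_Ioo.preimage this

lemma P15_s {s : ℝ} (hs : s ^ 2 = 1) : s = 1 ∨ s = -1 := by
  have : (s - 1) * (s + 1) = 0 := by nlinarith
  rcases mul_eq_zero.1 this with h | h
  · left; linarith
  · right; linarith

lemma P15U_subset [NeZero n] {s : ℝ} (hs : s ^ 2 = 1) : P15U n s ⊆ slab n := by
  intro x hx
  rcases P15_s hs with rfl | rfl
  · exact ⟨by linarith [hx.1, Real.pi_pos], by linarith [hx.2]⟩
  · exact ⟨by linarith [hx.2], by linarith [hx.1, Real.pi_pos]⟩

/-- `e^{-v₀} = sin y`, `y = π/2 - s x₀`. -/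
lemma P15_exp_v₀ [NeZero n] {s : ℝ} (hs : s ^ 2 = 1) {x : E n} (hx : x ∈ slab n) :
    Real.exp (-v₀ x) = Real.sin (Real.pi / 2 - s * x 0) := by
  unfold v₀
  have hc : 0 < Real.cos (x 0) := Real.cos_pos_of_mem_Ioo hx
  rw [neg_neg, Real.exp_log hc, Real.sin_pi_div_two_sub]
  rcases P15_s hs with rfl | rfl
  · simp
  · simp

lemma P15_cont [NeZero n] {u : E n → ℝ → ℝ} (hu : IsGraphicalSolution (slab n) u) {s : ℝ}
    (hs : s ^ 2 = 1) {T : ℝ} (α β c κ d : ℝ) :
    ContinuousOn (fun p : E n × ℝ => P15F α β c (u p.1 p.2) p.2 - (κ * p.1 0 + d))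
      (P15U n s ×ˢ Icc 0 T) := by
  have h1 : ContinuousOn (fun p : E n × ℝ => u p.1 p.2) (P15U n s ×ˢ Icc 0 T) :=
    hu.cont.mono (prod_mono (P15U_subset hs) (fun t ht => ht.1))
  unfold P15F
  have h2 : Continuous (fun p : E n × ℝ => p.1 0) := by fun_prop
  have h3 : ContinuousOn (fun p : E n × ℝ => p.1 0) (P15U n s ×ˢ Icc 0 T) := h2.continuousOn
  fun_prop

/-- Upper bound for `u` near the edges. -/
lemma P15_upper [NeZero n] {u : E n → ℝ → ℝ} (hu : IsGraphicalSolution (slab n) u)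
    {T C₀ ε' A R y₀ C s : ℝ} (hT : 0 ≤ T) (hs : s ^ 2 = 1)
    (h1 : ∀ x ∈ slab n, ∀ t ∈ Icc 0 T, u x t - (v₀ x + t) ≤ C₀)
    (h2 : ∀ x ∈ slab n, (∃ i : Fin n, i ≠ 0 ∧ R ≤ |x i|) →
      ∀ t ∈ Icc 0 T, u x t - (v₀ x + t) ≤ ε')
    (h3 : ∀ x ∈ slab n, Real.pi / 2 - s * x 0 ≤ y₀ → u x 0 - v₀ x ≤ ε')
    (hy₀ : 0 < y₀) (hy₀' : y₀ < Real.pi / 2) (hA : 0 < A)
    (hAy : ∀ y, 0 < y → y ≤ y₀ → y ≤ A * (Real.exp (-ε') * Real.sin y))
    (hC : Real.pi / 2 ≤ C * (Real.exp (-C₀) * Real.sin y₀) ^ 2) :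
    ∀ x ∈ P15U n s, ∀ t ∈ Icc 0 T,
      Real.pi / 2 - s * x 0 ≤ A * Real.exp (t - u x t) + C * Real.exp (4 * t - 2 * u x t) := by
  have hpi := Real.pi_pos
  have hsin : 0 < Real.sin y₀ := Real.sin_pos_of_pos_of_lt_pi hy₀ (by linarith)
  have hC0 : 0 < C := by
    by_contra hcon
    push Not at hcon
    have : C * (Real.exp (-C₀) * Real.sin y₀) ^ 2 ≤ 0 :=
      mul_nonpos_of_nonpos_of_nonneg hcon (sq_nonneg _)
    linarith
  -- pointwise facts
  have e1 : ∀ x ∈ P15U n s, ∀ t b : ℝ, u x t - (v₀ x + t) ≤ b →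
      Real.exp (-b) * Real.sin (Real.pi / 2 - s * x 0) ≤ Real.exp (t - u x t) := by
    intro x hx t b hb
    rw [← P15_exp_v₀ hs (P15U_subset hs hx), ← Real.exp_add]
    apply Real.exp_le_exp.2
    linarith
  have e2 : ∀ x : E n, ∀ t ∈ Icc 0 T, Real.exp (t - u x t) ^ 2 ≤ Real.exp (4 * t - 2 * u x t) := by
    intro x t ht
    rw [← Real.exp_nat_mul]
    apply Real.exp_le_exp.2
    push_cast
    linarith [ht.1]
  -- interior region
  have e3 : ∀ x ∈ P15U n s, y₀ < Real.pi / 2 - s * x 0 → ∀ t ∈ Icc 0 T,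
      Real.pi / 2 - s * x 0 ≤ C * Real.exp (4 * t - 2 * u x t) := by
    intro x hx hxy t ht
    have f1 := e1 x hx t C₀ (h1 x (P15U_subset hs hx) t ht)
    have f2 : Real.sin y₀ ≤ Real.sin (Real.pi / 2 - s * x 0) :=
      Real.sin_le_sin_of_le_of_le_pi_div_two (by linarith) (by linarith [hx.1]) hxy.le
    have f3 : (Real.exp (-C₀) * Real.sin y₀) ^ 2 ≤ Real.exp (4 * t - 2 * u x t) := by
      refine le_trans ?_ (e2 x t ht)
      apply pow_le_pow_left₀ (by positivity)
      refine le_trans ?_ f1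
      exact mul_le_mul_of_nonneg_left f2 (Real.exp_pos _).le
    have f4 := mul_le_mul_of_nonneg_left f3 hC0.le
    linarith [hx.1]
  have e4 : ∀ x ∈ P15U n s, Real.pi / 2 - s * x 0 ≤ y₀ → ∀ t, u x t - (v₀ x + t) ≤ ε' →
      Real.pi / 2 - s * x 0 ≤ A * Real.exp (t - u x t) := by
    intro x hx hxy t hb
    refine (hAy _ (by linarith [hx.2]) hxy).trans ?_
    exact mul_le_mul_of_nonneg_left (e1 x hx t ε' hb) hA.le
  have hpos1 : ∀ x : E n, ∀ t : ℝ, 0 ≤ A * Real.exp (t - u x t) := fun x t => by positivity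
  have hpos2 : ∀ x : E n, ∀ t : ℝ, 0 ≤ C * Real.exp (4 * t - 2 * u x t) := fun x t => by positivity
  -- the maximum principle for every `σ`
  have main : ∀ σ : ℝ, 0 < σ → ∀ x ∈ P15U n s, ∀ t ∈ Icc 0 T,
      P15F (-A) (-C) 4 (u x t) t - (s * x 0 + (-(Real.pi / 2) + σ)) ≤ 0 := by
    intro σ hσ
    have hK := P15_isCompact_slabBox (n := n) s (Real.pi / 2 - y₀) (Real.pi / 2 - σ) R hs
    refine P15_max hK ?_ (P15U_open s) (h := fun x t => P15F (-A) (-C) 4 (u x t) t -
      (s * x 0 + (-(Real.pi / 2) + σ))) (P15_cont hu hs _ _ _ _ _) ?_ ?_ ?_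
    · rintro x ⟨hx1, hx2, _⟩
      exact ⟨by linarith, by linarith⟩
    · intro x hx
      simp only
      unfold P15F
      by_cases hxy : Real.pi / 2 - s * x 0 ≤ y₀
      · have h5 := e4 x hx hxy 0 (by simpa using h3 x (P15U_subset hs hx) hxy)
        have h6 := hpos2 x 0
        generalize Real.exp (0 - u x 0) = E1 at *
        generalize Real.exp (4 * 0 - 2 * u x 0) = E2 at *
        nlinarith only [h5, h6, hσ]
      · push Not at hxy
        have := e3 x hx hxy 0 ⟨le_rfl, hT⟩
        linarith [hpos1 x 0]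
    · intro x hx hxK t ht
      simp only
      unfold P15F
      by_cases hxy : Real.pi / 2 - s * x 0 ≤ y₀
      · by_cases hxσ : s * x 0 ≤ Real.pi / 2 - σ
        · have : ∃ i : Fin n, i ≠ 0 ∧ R ≤ |x i| := by
            by_contra hcon
            push Not at hcon
            exact hxK ⟨by linarith, hxσ, fun i hi => (hcon i hi).le⟩
          have := e4 x hx hxy t (h2 x (P15U_subset hs hx) this t ht)
          linarith [hpos2 x t]
        · push Not at hxσ
          linarith [hpos1 x t, hpos2 x t]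
      · push Not at hxy
        have := e3 x hx hxy t ht
        linarith [hpos1 x t]
    · intro x hx t ht _ hmax hsmax
      have key := P15_critF hu (P15U_subset hs hx) ht.1 (-A) (-C) 4 hs hmax
        (fun r hr => by linarith [hsmax r hr])
      set a := A * Real.exp (t - u x t) with ha
      set b := C * Real.exp (4 * t - 2 * u x t) with hb
      have ha0 : 0 < a := by positivity
      have hb0 : 0 < b := by positivity
      have k1 : -A * Real.exp (t - u x t) + 4 * (-C * Real.exp (4 * t - 2 * u x t)) =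
        -(a + 4 * b) := by rw [ha, hb]; ring
      have k2 : -A * Real.exp (t - u x t) + 2 * (-C * Real.exp (4 * t - 2 * u x t)) =
        -(a + 2 * b) := by rw [ha, hb]; ring
      rw [k1, k2, div_le_iff₀ (by positivity)] at key
      nlinarith [mul_pos (show 0 < a + 4 * b by positivity)
        (show 0 < (a + 2 * b) ^ 2 by positivity)]
  intro x hx t ht
  refine le_of_forall_pos_le_add fun σ hσ => ?_
  have := main σ hσ x hx t ht
  unfold P15F at this
  linarith

/-- Lower bound for `u` near the edges. -/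
lemma P15_lower [NeZero n] {u : E n → ℝ → ℝ} (hu : IsGraphicalSolution (slab n) u)
    {T C₀ ε' B R y₀ C s : ℝ} (hT : 0 ≤ T) (hs : s ^ 2 = 1)
    (h1 : ∀ x ∈ slab n, ∀ t ∈ Icc 0 T, -C₀ ≤ u x t - (v₀ x + t))
    (h2 : ∀ x ∈ slab n, (∃ i : Fin n, i ≠ 0 ∧ R ≤ |x i|) →
      ∀ t ∈ Icc 0 T, -ε' ≤ u x t - (v₀ x + t))
    (h3 : ∀ x ∈ slab n, Real.pi / 2 - s * x 0 ≤ y₀ → -ε' ≤ u x 0 - v₀ x)
    (hy₀' : y₀ < Real.pi / 2) (hB : 0 < B) (hB1 : B ≤ 1)
    (hBε : B * Real.exp ε' ≤ 1) (hC : 0 < C) (hCy : 1 / (4 * C) ≤ y₀)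
    (hCC : Real.exp C₀ < 2 * C) :
    ∀ x ∈ P15U n s, ∀ t ∈ Icc 0 T,
      B * Real.exp (t - u x t) - C * Real.exp (6 * t - 2 * u x t) ≤ Real.pi / 2 - s * x 0 := by
  have hpi := Real.pi_pos
  -- pointwise facts
  have e1 : ∀ x ∈ P15U n s, ∀ t b : ℝ, -b ≤ u x t - (v₀ x + t) →
      Real.exp (t - u x t) ≤ Real.exp b * Real.sin (Real.pi / 2 - s * x 0) := by
    intro x hx t b hb
    rw [← P15_exp_v₀ hs (P15U_subset hs hx), ← Real.exp_add]
    apply Real.exp_le_exp.2
    linarith
  have e2 : ∀ x : E n, ∀ t ∈ Icc 0 T, Real.exp (t - u x t) ^ 2 ≤ Real.exp (6 * t - 2 * u x t) := by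
    intro x t ht
    rw [← Real.exp_nat_mul]
    apply Real.exp_le_exp.2
    push_cast
    linarith [ht.1]
  have e5 : ∀ x ∈ P15U n s, Real.sin (Real.pi / 2 - s * x 0) ≤ Real.pi / 2 - s * x 0 := by
    intro x hx
    exact Real.sin_le (by linarith [hx.2])
  -- interior region
  have e3 : ∀ x ∈ P15U n s, y₀ < Real.pi / 2 - s * x 0 → ∀ t ∈ Icc 0 T,
      B * Real.exp (t - u x t) - C * Real.exp (6 * t - 2 * u x t) ≤ Real.pi / 2 - s * x 0 := by
    intro x hx hxy t ht
    have f1 := e2 x t ht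
    have f2 : 0 < Real.exp (t - u x t) := Real.exp_pos _
    set E1 := Real.exp (t - u x t)
    set E2 := Real.exp (6 * t - 2 * u x t)
    have f3 : E1 - C * E1 ^ 2 ≤ 1 / (4 * C) := by
      rw [le_div_iff₀ (by positivity)]
      nlinarith [sq_nonneg (2 * C * E1 - 1)]
    have f4 : C * E1 ^ 2 ≤ C * E2 := mul_le_mul_of_nonneg_left f1 hC.le
    have f5 : B * E1 ≤ E1 := by nlinarith
    linarith
  have e4 : ∀ x ∈ P15U n s, Real.pi / 2 - s * x 0 ≤ y₀ → ∀ t, -ε' ≤ u x t - (v₀ x + t) →
      B * Real.exp (t - u x t) ≤ Real.pi / 2 - s * x 0 := by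
    intro x hx hxy t hb
    have f1 := mul_le_mul_of_nonneg_left (e1 x hx t ε' hb) hB.le
    have f2 : 0 ≤ Real.sin (Real.pi / 2 - s * x 0) :=
      Real.sin_nonneg_of_nonneg_of_le_pi (by linarith [hx.2]) (by linarith [hx.1])
    have f3 := mul_le_mul_of_nonneg_right hBε f2
    linarith [e5 x hx]
  have hpos2 : ∀ x : E n, ∀ t : ℝ, 0 ≤ C * Real.exp (6 * t - 2 * u x t) := fun x t => by positivity
  -- the maximum principle for every `σ`
  have main : ∀ σ : ℝ, 0 < σ → ∀ x ∈ P15U n s, ∀ t ∈ Icc 0 T,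
      P15F B (-C) 6 (u x t) t - (-s * x 0 + (Real.pi / 2 + σ)) ≤ 0 := by
    intro σ hσ
    have hK := P15_isCompact_slabBox (n := n) s (Real.pi / 2 - y₀)
      (Real.pi / 2 - σ * Real.exp (-C₀)) R hs
    have hσ' : 0 < σ * Real.exp (-C₀) := by positivity
    refine P15_max hK ?_ (P15U_open s) (h := fun x t => P15F B (-C) 6 (u x t) t -
      (-s * x 0 + (Real.pi / 2 + σ))) (P15_cont hu hs _ _ _ _ _) ?_ ?_ ?_
    · rintro x ⟨hx1, hx2, _⟩
      exact ⟨by linarith, by linarith⟩
    · intro x hx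
      simp only
      unfold P15F
      by_cases hxy : Real.pi / 2 - s * x 0 ≤ y₀
      · have h5 := e4 x hx hxy 0 (by simpa using h3 x (P15U_subset hs hx) hxy)
        have h6 := hpos2 x 0
        generalize Real.exp (0 - u x 0) = E1 at *
        generalize Real.exp (6 * 0 - 2 * u x 0) = E2 at *
        nlinarith only [h5, h6, hσ]
      · push Not at hxy
        have h5 := e3 x hx hxy 0 ⟨le_rfl, hT⟩
        generalize Real.exp (0 - u x 0) = E1 at *
        generalize Real.exp (6 * 0 - 2 * u x 0) = E2 at *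
        nlinarith only [h5, hσ]
    · intro x hx hxK t ht
      simp only
      unfold P15F
      by_cases hxy : Real.pi / 2 - s * x 0 ≤ y₀
      · by_cases hxσ : s * x 0 ≤ Real.pi / 2 - σ * Real.exp (-C₀)
        · have : ∃ i : Fin n, i ≠ 0 ∧ R ≤ |x i| := by
            by_contra hcon
            push Not at hcon
            exact hxK ⟨by linarith, hxσ, fun i hi => (hcon i hi).le⟩
          have := e4 x hx hxy t (h2 x (P15U_subset hs hx) this t ht)
          linarith [hpos2 x t]
        · push Not at hxσ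
          have f1 := e1 x hx t C₀ (h1 x (P15U_subset hs hx) t ht)
          have f2 := mul_le_mul_of_nonneg_left (e5 x hx) (Real.exp_pos C₀).le
          have f3 : Real.exp C₀ * (Real.pi / 2 - s * x 0) ≤ σ := by
            have : Real.exp C₀ * (Real.pi / 2 - s * x 0) ≤
                Real.exp C₀ * (σ * Real.exp (-C₀)) :=
              mul_le_mul_of_nonneg_left (by linarith) (Real.exp_pos C₀).le
            refine this.trans (le_of_eq ?_)
            have h7 : Real.exp C₀ * Real.exp (-C₀) = 1 := by rw [← Real.exp_add]; simp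
            calc Real.exp C₀ * (σ * Real.exp (-C₀)) = σ * (Real.exp C₀ * Real.exp (-C₀)) := by ring
              _ = σ := by rw [h7, mul_one]
          have f5 : B * Real.exp (t - u x t) ≤ Real.exp (t - u x t) := by
            have := Real.exp_pos (t - u x t)
            nlinarith
          linarith [hpos2 x t, hx.2]
      · push Not at hxy
        have := e3 x hx hxy t ht
        linarith
    · intro x hx t ht hpos hmax hsmax
      have key := P15_critF hu (P15U_subset hs hx) ht.1 B (-C) 6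
        (κ := -s) (by rw [neg_sq]; exact hs) hmax
        (fun r hr => by linarith [hsmax r hr])
      simp only at hpos
      unfold P15F at hpos
      have f1 := e2 x t ⟨ht.1.le, ht.2⟩
      have f2 := e1 x hx t C₀ (h1 x (P15U_subset hs hx) t ⟨ht.1.le, ht.2⟩)
      have f0 : 0 < Real.exp (t - u x t) := Real.exp_pos _
      have f3 : Real.exp (t - u x t) ≤ Real.exp C₀ := by
        refine f2.trans ?_
        have := mul_le_mul_of_nonneg_left (Real.sin_le_one (Real.pi / 2 - s * x 0))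
          (Real.exp_pos C₀).le
        linarith
      have hy : 0 < Real.pi / 2 - s * x 0 := by linarith [hx.2]
      have f4 : B * Real.exp (t - u x t) ≤ Real.exp (t - u x t) := by nlinarith
      set E1 := Real.exp (t - u x t) with hE1
      set E2 := Real.exp (6 * t - 2 * u x t) with hE2
      set a := B * E1 with ha
      set b := C * E2 with hb
      have ha0 : 0 < a := by positivity
      have hb0 : 0 < b := by positivity
      have hab : b < a := by
        have : -C * E2 = -b := by rw [hb]; ring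
        rw [this] at hpos
        linarith
      have k1 : a + 4 * (-C * E2) = a - 4 * b := by rw [hb]; ring
      have k2 : a + 2 * (-C * E2) = a - 2 * b := by rw [hb]; ring
      have k3 : a + 6 * (-C * E2) = a - 6 * b := by rw [hb]; ring
      rw [k1, k2, k3, div_le_iff₀ (by positivity)] at key
      have k4 : 2 * b ≤ (a - 6 * b) * (a - 2 * b) ^ 2 := by nlinarith
      have k5 : (a - 2 * b) ^ 2 ≤ a ^ 2 := by nlinarith
      have k6 : 0 < a - 6 * b := by
        by_contra hcon
        push Not at hcon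
        nlinarith [mul_nonneg (show 0 ≤ -(a - 6 * b) by linarith) (sq_nonneg (a - 2 * b))]
      have k7 : (a - 6 * b) * (a - 2 * b) ^ 2 ≤ a * a ^ 2 :=
        mul_le_mul (by linarith) k5 (sq_nonneg _) ha0.le
      have k8 : C * a ^ 2 ≤ b := by
        have : a ^ 2 ≤ E1 ^ 2 := pow_le_pow_left₀ ha0.le f4 2
        rw [hb]
        exact mul_le_mul_of_nonneg_left (this.trans f1) hC.le
      have k9 : 2 * C * a ^ 2 ≤ a * a ^ 2 := by linarith
      have k10 : 2 * C ≤ a := le_of_mul_le_mul_right k9 (by positivity)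
      linarith
  intro x hx t ht
  refine le_of_forall_pos_le_add fun σ hσ => ?_
  have := main σ hσ x hx t ht
  unfold P15F at this
  linarith

end Pool.Agent.GR
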