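import Pool.Agent.Helper35.GR.Defs2

/-!
# P15 : decay at the edges of the slab, part 1: the operator at critical points
-/

set_option autoImplicit false

open scoped ContDiff Topology NNReal
open Set Filter MeasureTheory

namespace Pool.Agent.GR

open Pool.Agent.Helper25.GrimReaper

variable {n : ℕ}

/-- Hessian of a composition `φ ∘ u`. -/
lemma P15_hess_comp {u : E n → ℝ} {x : E n} (hu : ContDiffAt ℝ 2 u x) {φ : ℝ → ℝ}
    (hφ : ContDiffAt ℝ 2 φ (u x)) (v w : E n) :
    hess (fun y => φ (u y)) x v w = deriv φ (u x) * hess u x v w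
      + deriv (deriv φ) (u x) * (fderiv ℝ u x v * fderiv ℝ u x w) := by
  have hcont : Tendsto u (𝓝 x) (𝓝 (u x)) := hu.continuousAt
  have h1 : ∀ᶠ s in 𝓝 (u x), ContDiffAt ℝ 2 φ s := hφ.eventually (by simp)
  have h1' : ∀ᶠ y in 𝓝 x, ContDiffAt ℝ 2 u y := hu.eventually (by simp)
  have h2 : fderiv ℝ (fun y => φ (u y)) =ᶠ[𝓝 x] fun y => deriv φ (u y) • fderiv ℝ u y := by
    filter_upwards [hcont.eventually h1, h1'] with y hy hy'
    exact ((hy.differentiableAt (by norm_num)).hasDerivAt.comp_hasFDerivAt y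
      (hy'.differentiableAt (by norm_num)).hasFDerivAt).fderiv
  have h3 : DifferentiableAt ℝ (deriv φ) (u x) := by
    have : ContDiffAt ℝ 1 (deriv φ) (u x) := by
      have h4 : ContDiffAt ℝ 1 (fderiv ℝ φ) (u x) := hφ.fderiv_right (m := 1) (by norm_num)
      have h5 : deriv φ = fun s => fderiv ℝ φ s 1 := by
        funext s; simp
      rw [h5]
      exact h4.clm_apply contDiffAt_const
    exact this.differentiableAt (by norm_num)
  have h4 : HasFDerivAt (fun y => deriv φ (u y)) (deriv (deriv φ) (u x) • fderiv ℝ u x) x :=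
    h3.hasDerivAt.comp_hasFDerivAt x (hu.differentiableAt (by norm_num)).hasFDerivAt
  have h5 := h4.smul (hasFDerivAt_fderiv hu)
  unfold hess
  rw [h2.fderiv_eq]
  have h6 : (fun y => deriv φ (u y) • fderiv ℝ u y) = ((fun y => deriv φ (u y)) • fderiv ℝ u) := rfl
  rw [h6, h5.fderiv]
  simp only [add_apply, smul_apply, ContinuousLinearMap.smulRight_apply, smul_eq_mul]
  unfold hess
  ring

/-- First order condition and Hessian inequality at a local maximum of `φ(u(y)) - κ yᵢ`,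
`κ² = 1`. -/
lemma P15_crit_space {u : E n → ℝ} {x : E n} (hu : ContDiffAt ℝ 2 u x) {φ : ℝ → ℝ}
    (hφ : ContDiffAt ℝ 2 φ (u x)) {i : Fin n} {κ c : ℝ} (hκ : κ ^ 2 = 1)
    (hmax : IsLocalMax (fun y : E n => φ (u y) - (κ * y i + c)) x) :
    deriv φ (u x) * mcfOperator u x
      + deriv (deriv φ) (u x) / (1 + deriv φ (u x) ^ 2) ≤ 0 := by
  set a := deriv φ (u x) with ha
  set b := deriv (deriv φ) (u x) with hb
  -- the linear part
  set ℓ : E n → ℝ := fun y => κ * y i + c with hℓ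
  have hℓd : ∀ y, HasFDerivAt ℓ (κ • (EuclideanSpace.proj i : E n →L[ℝ] ℝ)) y := fun y =>
    (((EuclideanSpace.proj i : E n →L[ℝ] ℝ).hasFDerivAt (x := y)).const_mul κ).add_const c
  have hℓ2 : ContDiffAt ℝ 2 ℓ x := by
    have : ContDiff ℝ 2 ℓ := by
      rw [hℓ]; fun_prop
    exact this.contDiffAt
  have hφu : ContDiffAt ℝ 2 (fun y => φ (u y)) x := ContDiffAt.comp x hφ hu
  have hdu : DifferentiableAt ℝ u x := hu.differentiableAt (by norm_num)
  have h1 : fderiv ℝ (fun y => φ (u y) - ℓ y) x = 0 := hmax.fderiv_eq_zero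
  have h2 : fderiv ℝ (fun y => φ (u y)) x = a • fderiv ℝ u x :=
    ((hφ.differentiableAt (by norm_num)).hasDerivAt.comp_hasFDerivAt x hdu.hasFDerivAt).fderiv
  rw [fderiv_fun_sub (hφu.differentiableAt (by norm_num)) (hℓd x).differentiableAt, h2,
    (hℓd x).fderiv, sub_eq_zero] at h1
  -- the gradient
  have h3 : a • gradient u x = κ • EuclideanSpace.single i (1 : ℝ) := by
    ext j
    have h4 := congrArg (fun L : E n →L[ℝ] ℝ => L (EuclideanSpace.single j (1 : ℝ))) h1
    simp only [smul_apply, smul_eq_mul, PiLp.proj_apply] at h4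
    simp only [PiLp.smul_apply, smul_eq_mul]
    rw [Helper25.GrimReaper.gradient_eq, riesz_coord, h4]
    simp [PiLp.single_apply, eq_comm]
  have h4 : a ^ 2 * ‖gradient u x‖ ^ 2 = 1 := by
    have := congrArg (fun v : E n => ‖v‖ ^ 2) h3
    simp only [norm_smul, mul_pow, Real.norm_eq_abs, sq_abs, PiLp.norm_single,
      norm_one, mul_one, hκ] at this
    simpa using this
  have ha0 : a ≠ 0 := by
    intro h; rw [h] at h4; simp at h4
  have h5 : ‖gradient u x‖ ^ 2 = (a ^ 2)⁻¹ := by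
    field_simp
    linarith
  -- the Hessian
  have hH : ∀ w, hess (fun y => φ (u y)) x w w ≤ 0 := by
    intro w
    have h6 := hess_nonpos_of_isLocalMax (hφu.sub hℓ2) hmax w
    rw [hess_sub hφu hℓ2] at h6
    have h7 : hess ℓ x = 0 := by
      unfold hess
      have : fderiv ℝ ℓ = fun _ => κ • (EuclideanSpace.proj i : E n →L[ℝ] ℝ) :=
        funext fun y => (hℓd y).fderiv
      rw [this]; simp
    rw [h7] at h6
    simpa using h6
  have h8 := trace_nonpos (hess (fun y => φ (u y)) x) hH (gradient u x)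
  rw [mcf_formula hu]
  simp only [P15_hess_comp hu hφ] at h8
  have hfg : ∀ v, fderiv ℝ u x v = inner ℝ (gradient u x) v := fun v => by
    rw [Helper25.GrimReaper.gradient_eq]; exact (inner_riesz _ _).symm
  have h9 : ∑ j : Fin n, (fderiv ℝ u x (EuclideanSpace.single j (1 : ℝ)) *
      fderiv ℝ u x (EuclideanSpace.single j (1 : ℝ))) = ‖gradient u x‖ ^ 2 := by
    rw [← sq_sum_eq]
    refine Finset.sum_congr rfl fun j _ => ?_
    rw [Helper25.GrimReaper.gradient_eq, riesz_coord]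
  rw [Finset.sum_add_distrib, ← Finset.mul_sum, ← Finset.mul_sum, h9, hfg,
    real_inner_self_eq_norm_sq] at h8
  have h10 : b / (1 + a ^ 2) = b * ‖gradient u x‖ ^ 2
      - (1 + ‖gradient u x‖ ^ 2)⁻¹ * (b * (‖gradient u x‖ ^ 2 * ‖gradient u x‖ ^ 2)) := by
    rw [h5]
    field_simp
    ring
  rw [h10]
  linarith

/-- The parabolic inequality at an interior space-time maximum of
`f(u(y,s),s) - κ yᵢ`. -/
lemma P15_crit [NeZero n] {u : E n → ℝ → ℝ} (hu : IsGraphicalSolution (slab n) u)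
    {x : E n} (hx : x ∈ slab n) {t : ℝ} (ht : 0 < t) {f : ℝ → ℝ → ℝ} {fh fhh ft : ℝ}
    (hf : ContDiffAt ℝ 2 (fun h => f h t) (u x t))
    (hfh : deriv (fun h => f h t) (u x t) = fh)
    (hfhh : deriv (deriv (fun h => f h t)) (u x t) = fhh)
    (hft : ∀ u' : ℝ, HasDerivAt (fun s => u x s) u' t →
      HasDerivAt (fun s => f (u x s) s) (ft + fh * u') t)
    {κ c : ℝ} (hκ : κ ^ 2 = 1)
    (hmax : IsLocalMax (fun y : E n => f (u y t) t - (κ * y 0 + c)) x)
    (hs : ∀ s ∈ Icc 0 t, f (u x s) s ≤ f (u x t) t) :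
    fhh / (1 + fh ^ 2) ≤ ft := by
  have hopen : IsOpen (slab n ×ˢ Ioi (0 : ℝ)) := by
    refine IsOpen.prod ?_ isOpen_Ioi
    have : Continuous (fun z : E n => z 0) := by fun_prop
    exact isOpen_Ioo.preimage this
  have hsm : ContDiffAt ℝ ∞ (fun p : E n × ℝ => u p.1 p.2) (x, t) :=
    hu.smooth.contDiffAt (hopen.mem_nhds ⟨hx, ht⟩)
  have hux : ContDiffAt ℝ 2 (fun y => u y t) x := by
    have h1 : ContDiffAt ℝ ∞ (fun y : E n => ((y, t) : E n × ℝ)) x := by fun_prop
    exact (ContDiffAt.comp x (f := fun y : E n => ((y, t) : E n × ℝ)) hsm h1).of_le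
      (by norm_cast)
  have hut : DifferentiableAt ℝ (fun s => u x s) t := by
    have h1 : ContDiffAt ℝ ∞ (fun s : ℝ => ((x, s) : E n × ℝ)) t := by fun_prop
    exact (ContDiffAt.comp t (f := fun s : ℝ => ((x, s) : E n × ℝ)) hsm h1).differentiableAt
      (by simp)
  have h1 := P15_crit_space hux hf hκ hmax
  rw [hfh, hfhh] at h1
  have h2 := hft _ hut.hasDerivAt
  rw [hu.mcf x hx t ht] at h2
  have h3 := deriv_nonneg_of_left_max ht h2 hs
  linarith

end Pool.Agent.GR
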