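import Pool.Agent.Helper91.GR.EdgeCrit

/-!
# P15 : decay at the edges of the slab, part 2: maximum principles
-/

set_option autoImplicit false

open scoped ContDiff Topology NNReal
open Set Filter MeasureTheory

namespace Pool.Agent.GR

open Pool.Agent.Helper25.GrimReaper

variable {n : ℕ}

/-- Parabolic maximum principle with positivity at the maximum. -/
lemma P15_max {U K : Set (E n)} (hK : IsCompact K) (hKU : K ⊆ U) (hU : IsOpen U)
    {h : E n → ℝ → ℝ} {T : ℝ}
    (hc : ContinuousOn (fun p : E n × ℝ => h p.1 p.2) (U ×ˢ Icc 0 T))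
    (h0 : ∀ x ∈ U, h x 0 ≤ 0)
    (hout : ∀ x ∈ U, x ∉ K → ∀ t ∈ Icc 0 T, h x t ≤ 0)
    (hcrit : ∀ x ∈ U, ∀ t ∈ Ioc 0 T, 0 < h x t → IsLocalMax (fun y => h y t) x →
      (∀ s ∈ Icc 0 t, h x s ≤ h x t) → False) :
    ∀ x ∈ U, ∀ t ∈ Icc 0 T, h x t ≤ 0 := by
  by_contra hcon
  push Not at hcon
  obtain ⟨x1, hx1, t1, ht1, hpos⟩ := hcon
  have hx1K : x1 ∈ K := by
    by_contra hx
    exact absurd (hout x1 hx1 hx t1 ht1) (not_le.2 hpos)
  have hcomp : IsCompact (K ×ˢ Icc (0 : ℝ) T) := hK.prod isCompact_Icc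
  obtain ⟨⟨x, t⟩, ⟨hxK, ht⟩, hmax⟩ := hcomp.exists_isMaxOn ⟨(x1, t1), hx1K, ht1⟩
    (hc.mono (prod_mono hKU le_rfl))
  have hmax1 : h x1 t1 ≤ h x t := hmax (a := (x1, t1)) ⟨hx1K, ht1⟩
  have hall : ∀ y ∈ U, ∀ s ∈ Icc 0 T, h y s ≤ h x t := by
    intro y hy s hs
    by_cases hyK : y ∈ K
    · exact hmax (a := (y, s)) ⟨hyK, hs⟩
    · exact (hout y hy hyK s hs).trans (by linarith)
  have hxU : x ∈ U := hKU hxK
  have ht0 : 0 < t := by
    rcases eq_or_lt_of_le ht.1 with h' | h'
    · exfalso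
      have h2 : t = 0 := h'.symm
      have := h0 x hxU
      rw [h2] at hmax1
      linarith
    · exact h'
  refine hcrit x hxU t ⟨ht0, ht.2⟩ (by linarith) ?_ ?_
  · filter_upwards [hU.mem_nhds hxU] with y hy
    exact hall y hy t ht
  · intro s hs
    exact hall x hxU s ⟨hs.1, hs.2.trans ht.2⟩

/-- Boxes are compact. -/
lemma P15_isCompact_box (B : ℝ) : IsCompact {x : E n | ∀ i, |x i| ≤ B} := by
  have h1 : IsCompact ((EuclideanSpace.equiv (Fin n) ℝ).symm '' (Set.univ.pi
      (fun _ : Fin n => Icc (-B) B))) :=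
    (isCompact_univ_pi fun _ => isCompact_Icc).image
      (EuclideanSpace.equiv (Fin n) ℝ).symm.continuous
  convert h1 using 1
  ext x
  constructor
  · intro hx
    refine ⟨EuclideanSpace.equiv (Fin n) ℝ x, fun i _ => ?_, by simp⟩
    exact ⟨(abs_le.1 (hx i)).1, (abs_le.1 (hx i)).2⟩
  · rintro ⟨y, hy, rfl⟩ i
    have := hy i (mem_univ i)
    simpa using abs_le.2 ⟨this.1, this.2⟩

/-- Closed subset of a slab box. -/
lemma P15_isCompact_slabBox [NeZero n] (s a b R : ℝ) (hs : s ^ 2 = 1) :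
    IsCompact {x : E n | a ≤ s * x 0 ∧ s * x 0 ≤ b ∧ ∀ i : Fin n, i ≠ 0 → |x i| ≤ R} := by
  refine (P15_isCompact_box (n := n) (max (max |a| |b|) R)).of_isClosed_subset ?_ ?_
  · have h1 : {x : E n | a ≤ s * x 0 ∧ s * x 0 ≤ b ∧ ∀ i : Fin n, i ≠ 0 → |x i| ≤ R} =
        {x : E n | a ≤ s * x 0} ∩ ({x : E n | s * x 0 ≤ b} ∩
          ⋂ i : Fin n, ⋂ _ : i ≠ 0, {x : E n | |x i| ≤ R}) := by
      ext x; simp
    rw [h1]
    refine (isClosed_le (by fun_prop) (by fun_prop)).inter ((isClosed_le (by fun_prop)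
      (by fun_prop)).inter (isClosed_iInter fun i => isClosed_iInter fun _ =>
        isClosed_le (by fun_prop) (by fun_prop)))
  · rintro x ⟨hx1, hx2, hx3⟩ i
    by_cases hi : i = 0
    · subst hi
      have h1 : |x 0| = |s * x 0| := by
        rw [abs_mul]
        have : |s| = 1 := by
          have := sq_abs s
          rw [hs] at this
          nlinarith [abs_nonneg s]
        rw [this, one_mul]
      rw [h1]
      refine le_trans ?_ (le_max_left _ _)
      rw [abs_le]
      constructor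
      · have := neg_abs_le a
        have := le_max_left |a| |b|
        linarith
      · have := le_abs_self b
        have := le_max_right |a| |b|
        linarith
    · exact (hx3 i hi).trans (le_max_right _ _)

/-- The barrier functions. -/
noncomputable def P15F (α β c h t : ℝ) : ℝ :=
  α * Real.exp (t - h) + β * Real.exp (c * t - 2 * h)

lemma P15F_deriv (α β c t : ℝ) : deriv (fun h => P15F α β c h t) =
    fun h => -(α * Real.exp (t - h)) - 2 * (β * Real.exp (c * t - 2 * h)) := by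
  funext h
  have h1 : HasDerivAt (fun h => Real.exp (t - h)) (Real.exp (t - h) * (-1)) h :=
    ((hasDerivAt_id h).const_sub t).exp
  have h2 : HasDerivAt (fun h => Real.exp (c * t - 2 * h))
      (Real.exp (c * t - 2 * h) * (-(2 * 1))) h :=
    (((hasDerivAt_id h).const_mul 2).const_sub (c * t)).exp
  have h3 := (h1.const_mul α).add (h2.const_mul β)
  have h4 : HasDerivAt (fun h => P15F α β c h t)
      (α * (Real.exp (t - h) * (-1)) + β * (Real.exp (c * t - 2 * h) * (-(2 * 1)))) h := h3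
  rw [h4.deriv]; ring

lemma P15F_deriv2 (α β c t : ℝ) : deriv (deriv (fun h => P15F α β c h t)) =
    fun h => α * Real.exp (t - h) + 4 * (β * Real.exp (c * t - 2 * h)) := by
  rw [P15F_deriv]
  have : (fun h => -(α * Real.exp (t - h)) - 2 * (β * Real.exp (c * t - 2 * h))) =
      fun h => P15F (-α) (-2 * β) c h t := by
    funext h; unfold P15F; ring
  rw [this, P15F_deriv]
  funext h; ring

lemma P15F_contDiff (α β c t : ℝ) : ContDiff ℝ 2 (fun h => P15F α β c h t) := by
  unfold P15F; fun_prop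

/-- The inequality at a critical point for the barrier functions. -/
lemma P15_critF [NeZero n] {u : E n → ℝ → ℝ} (hu : IsGraphicalSolution (slab n) u)
    {x : E n} (hx : x ∈ slab n) {t : ℝ} (ht : 0 < t) (α β c : ℝ) {κ c' : ℝ} (hκ : κ ^ 2 = 1)
    (hmax : IsLocalMax (fun y : E n => P15F α β c (u y t) t - (κ * y 0 + c')) x)
    (hs : ∀ s ∈ Icc 0 t, P15F α β c (u x s) s ≤ P15F α β c (u x t) t) :
    (α * Real.exp (t - u x t) + 4 * (β * Real.exp (c * t - 2 * u x t))) /
      (1 + (α * Real.exp (t - u x t) + 2 * (β * Real.exp (c * t - 2 * u x t))) ^ 2) ≤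
    α * Real.exp (t - u x t) + c * (β * Real.exp (c * t - 2 * u x t)) := by
  have key := P15_crit hu hx ht (f := P15F α β c)
    (fh := -(α * Real.exp (t - u x t)) - 2 * (β * Real.exp (c * t - 2 * u x t)))
    (fhh := α * Real.exp (t - u x t) + 4 * (β * Real.exp (c * t - 2 * u x t)))
    (ft := α * Real.exp (t - u x t) + c * (β * Real.exp (c * t - 2 * u x t)))
    (P15F_contDiff α β c t).contDiffAt (by rw [P15F_deriv]) (by rw [P15F_deriv2])
    (fun u' hu' => ?_) hκ hmax hs
  · refine le_trans (le_of_eq ?_) key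
    congr 2
    ring
  · have h1 : HasDerivAt (fun s => Real.exp (s - u x s)) (Real.exp (t - u x t) * (1 - u')) t :=
      ((hasDerivAt_id t).sub hu').exp
    have h2 : HasDerivAt (fun s => Real.exp (c * s - 2 * u x s))
        (Real.exp (c * t - 2 * u x t) * (c * 1 - 2 * u')) t :=
      (((hasDerivAt_id t).const_mul c).sub (hu'.const_mul 2)).exp
    have h3 := (h1.const_mul α).add (h2.const_mul β)
    have h4 : HasDerivAt (fun s => P15F α β c (u x s) s)
      (α * (Real.exp (t - u x t) * (1 - u')) + β * (Real.exp (c * t - 2 * u x t) *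
        (c * 1 - 2 * u'))) t := h3
    refine h4.congr_deriv ?_
    ring

end Pool.Agent.GR
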